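import Pool.Agent.W528.HS.Main

/-!
# Semisimplicity of Frobenius: the final theorems
-/

set_option autoImplicit false

namespace Pool.Agent.W528.HS

open Finset Polynomial Pool.Agent.W528.HA

lemma pow_dvd_card {κ : Type} [Field κ] [Fintype κ] {z : κ} {N : ℕ} (hN : 0 < N)
    (hz : IsPrimitiveRoot z N) : N ∣ Fintype.card κ - 1 := by
  have h0 : z ≠ 0 := by
    rintro rfl
    have h1 := hz.pow_eq_one
    rw [zero_pow hN.ne'] at h1
    exact zero_ne_one h1
  rw [← hz.pow_eq_one_iff_dvd]
  exact FiniteField.pow_card_sub_one_eq_one z h0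

lemma card_eq_one {κ : Type} [Field κ] [Fintype κ] {z : κ} {p s : ℕ} (hp : p.Prime) (hs : 1 ≤ s)
    (hz : IsPrimitiveRoot z (p ^ s)) (k : Type) [Field k] [CharP k p] :
    ((Fintype.card κ : ℕ) : k) = 1 := by
  have h1 : p ∣ Fintype.card κ - 1 :=
    (dvd_pow_self p (by omega)).trans (pow_dvd_card (pow_pos hp.pos s) hz)
  have h2 : 1 ≤ Fintype.card κ := Fintype.card_pos
  obtain ⟨b, hb⟩ := h1
  have h3 : Fintype.card κ = p * b + 1 := by omega
  rw [h3]
  push_cast
  rw [CharP.cast_eq_zero, zero_mul, zero_add]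

/-- The polynomial `∏_i (1 - q ^ i T) ^ e_i`. -/
noncomputable def qPoly (q n : ℕ) (e : ℕ → ℕ) : ℤ[X] :=
  ∏ i ∈ range (n + 1), (1 - C ((q : ℤ) ^ i) * X) ^ e i

/-- The multiset of the `q ^ i` with multiplicities `e_i`. -/
noncomputable def qMult (E : Type) [Field E] (q n : ℕ) (e : ℕ → ℕ) : Multiset E :=
  ∑ i ∈ range (n + 1), Multiset.replicate (e i) ((q : E) ^ i)

lemma qPoly_map (E : Type) [Field E] (q n : ℕ) (e : ℕ → ℕ) :
    (qPoly q n e).map (Int.castRingHom E)
      = ((qMult E q n e).map fun x => 1 - C x * X).prod := by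
  unfold qPoly qMult
  induction n + 1 with
  | zero => simp
  | succ m ih =>
    rw [prod_range_succ, sum_range_succ, Multiset.map_add, Multiset.prod_add, Polynomial.map_mul,
      ih]
    congr 1
    rw [Multiset.map_replicate, Multiset.prod_replicate, Polynomial.map_pow]
    simp

lemma qPoly_coeff (q n : ℕ) (e : ℕ → ℕ) : (qPoly q n e).coeff 0 = 1 := by
  rw [coeff_zero_eq_eval_zero]
  unfold qPoly
  rw [eval_prod]
  apply prod_eq_one
  intro i _
  simp

lemma qPoly_red (q n : ℕ) (e : ℕ → ℕ) (k : Type) [Field k] (hq : (q : k) = 1) :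
    (qPoly q n e).map (Int.castRingHom k) = (1 - X) ^ (∑ i ∈ range (n + 1), e i) := by
  have hqX : ((q : ℕ) : k[X]) = 1 := by rw [← C_eq_natCast, hq, C_1]
  unfold qPoly
  rw [← prod_pow_eq_pow_sum, Polynomial.map_prod]
  apply prod_congr rfl
  intro i _
  rw [Polynomial.map_pow]
  congr 1
  simp [hqX]

lemma qMult_sum (E : Type) [Field E] (q n : ℕ) (e : ℕ → ℕ) (m : ℕ) :
    ((qMult E q n e).map fun x => x ^ m).sum = ∑ i ∈ range (n + 1), (e i : E) * ((q : E) ^ m) ^ i := by
  unfold qMult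
  induction n + 1 with
  | zero => simp
  | succ k ih =>
    rw [sum_range_succ, Multiset.map_add, Multiset.sum_add, ih, sum_range_succ]
    congr 1
    rw [Multiset.map_replicate, Multiset.sum_replicate, nsmul_eq_mul, ← pow_mul, ← pow_mul,
      mul_comm k m]

/-- Semisimplicity, with the number of points of the complement of the form
`∑ (e⁺_i - e⁻_i) |L| ^ i + (-1) ^ n ∑_{x ∈ B} x ^ [L : κ]`. -/
theorem semisimple_e (hOC : OC) (hEI : EI) (hEC : EC) (hTR : TR) (hRD : RD) {p s : ℕ}
    (hp : p.Prime) (hs : 1 ≤ s)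
    (κ : Type) [Field κ] [Fintype κ] {z : κ} (hz : IsPrimitiveRoot z (p ^ s)) {n : ℕ}
    (F : MvPolynomial (Fin (n + 1)) κ) {E : Type} [Field E] [CharZero E] [IsAlgClosed E]
    {μ : E} (hμ : IsPrimitiveRoot μ (p ^ s)) (e₁ e₂ : ℕ → ℕ) (P : ℤ[X]) (hP : P.coeff 0 = 1)
    (B : Multiset E)
    (hB : P.map (Int.castRingHom E) = (B.map fun x => 1 - C x * X).prod)
    (hU : ∀ (L : Type) [Field L] [Fintype L] [Algebra κ L],
      (projOpen L (F.map (algebraMap κ L)) : E)
        = (∑ i ∈ range (n + 1), ((e₁ i : E) - e₂ i) * (Fintype.card L : E) ^ i)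
          + (-1) ^ n * (B.map fun x => x ^ Module.finrank κ L).sum)
    {W : Type} [AddCommGroup W] [Module E W] [FiniteDimensional E W] (Φ : Module.End E W)
    (hΦ : ∀ (L : Type) [Field L] [Fintype L] [Algebra κ L],
      (-1) ^ n * LinearMap.trace E W (Φ ^ Module.finrank κ L)
        = projSum L E (p ^ s) (F.map (algebraMap κ L)) (algebraMap κ L z) μ)
    (H : (ZMod p)[X]) (hH : Squarefree H) (hdim : H.natDegree = Module.finrank E W)
    (hev : Even n → H * (1 - X) ^ (∑ i ∈ range (n + 1), e₂ i)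
      = (1 - X) ^ (∑ i ∈ range (n + 1), e₁ i) * P.map (Int.castRingHom (ZMod p)))
    (hodd : Odd n → H * (1 - X) ^ (∑ i ∈ range (n + 1), e₁ i)
      = (1 - X) ^ (∑ i ∈ range (n + 1), e₂ i) * P.map (Int.castRingHom (ZMod p))) :
    Φ.charpoly.Separable ∧ Φ.IsSemisimple := by
  classical
  have hfact : Fact p.Prime := ⟨hp⟩
  set q := Fintype.card κ with hq
  have hq1 : ((q : ℕ) : ZMod p) = 1 := card_eq_one hp hs hz (ZMod p)
  have hcard : ∀ (L : Type) [Field L] [Fintype L] [Algebra κ L],
      (Fintype.card L : E) = (q : E) ^ Module.finrank κ L := by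
    intro L _ _ _
    rw [Module.card_eq_pow_finrank (K := κ) (V := L)]
    push_cast
    rfl
  rcases Nat.even_or_odd n with hn | hn
  · refine semisimple_gen hOC hEI hEC hTR hRD hp κ hz F hμ (qPoly q n e₁ * P) (qPoly q n e₂) ?_
      (qPoly_coeff q n e₂) (qMult E q n e₁ + B) (qMult E q n e₂) ?_ (qPoly_map E q n e₂) ?_ Φ hΦ H
      hH hdim ?_ ?_
    · rw [mul_coeff_zero, qPoly_coeff, hP, mul_one]
    · rw [Polynomial.map_mul, qPoly_map, hB, Multiset.map_add, Multiset.prod_add]
    · intro L _ _ _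
      rw [hU L, Multiset.map_add, Multiset.sum_add, qMult_sum, qMult_sum, hn.neg_one_pow, hcard L]
      simp only [sub_mul, sum_sub_distrib]
      ring
    · intro _
      rw [Polynomial.map_mul, qPoly_red q n e₁ (ZMod p) hq1, qPoly_red q n e₂ (ZMod p) hq1]
      exact hev hn
    · intro h
      exact absurd hn (Nat.not_even_iff_odd.mpr h)
  · refine semisimple_gen hOC hEI hEC hTR hRD hp κ hz F hμ (qPoly q n e₁) (qPoly q n e₂ * P)
      (qPoly_coeff q n e₁) ?_ (qMult E q n e₁) (qMult E q n e₂ + B) (qPoly_map E q n e₁) ?_ ?_ Φ hΦ H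
      hH hdim ?_ ?_
    · rw [mul_coeff_zero, qPoly_coeff, hP, mul_one]
    · rw [Polynomial.map_mul, qPoly_map, hB, Multiset.map_add, Multiset.prod_add]
    · intro L _ _ _
      rw [hU L, Multiset.map_add, Multiset.sum_add, qMult_sum, qMult_sum, hn.neg_one_pow, hcard L]
      simp only [sub_mul, sum_sub_distrib]
      ring
    · intro h
      exact absurd h (Nat.not_even_iff_odd.mpr hn)
    · intro _
      rw [Polynomial.map_mul, qPoly_red q n e₁ (ZMod p) hq1, qPoly_red q n e₂ (ZMod p) hq1]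
      exact hodd hn

/-- Smooth branch hypersurface. -/
theorem semisimple_smooth (hOC : OC) (hPJ : PJ) (hEI : EI) (hEC : EC) (hTR : TR) (hRD : RD)
    {p s : ℕ} (hp : p.Prime) (hs : 1 ≤ s)
    (κ : Type) [Field κ] [Fintype κ] {z : κ} (hz : IsPrimitiveRoot z (p ^ s)) {n : ℕ}
    (F : MvPolynomial (Fin (n + 1)) κ) {E : Type} [Field E] [CharZero E] [IsAlgClosed E]
    {μ : E} (hμ : IsPrimitiveRoot μ (p ^ s)) (P : ℤ[X]) (hP : P.coeff 0 = 1)
    (B : Multiset E)
    (hB : P.map (Int.castRingHom E) = (B.map fun x => 1 - C x * X).prod)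
    (hZ : ∀ (L : Type) [Field L] [Fintype L] [Algebra κ L],
      (projZero L (F.map (algebraMap κ L)) : E)
        = (∑ i ∈ range n, (Fintype.card L : E) ^ i)
          - (-1) ^ n * (B.map fun x => x ^ Module.finrank κ L).sum)
    {W : Type} [AddCommGroup W] [Module E W] [FiniteDimensional E W] (Φ : Module.End E W)
    (hΦ : ∀ (L : Type) [Field L] [Fintype L] [Algebra κ L],
      (-1) ^ n * LinearMap.trace E W (Φ ^ Module.finrank κ L)
        = projSum L E (p ^ s) (F.map (algebraMap κ L)) (algebraMap κ L z) μ)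
    (H : (ZMod p)[X]) (hH : Squarefree H) (hdim : H.natDegree = Module.finrank E W)
    (hev : Even n → H = (1 - X) * P.map (Int.castRingHom (ZMod p)))
    (hodd : Odd n → (1 - X) * H = P.map (Int.castRingHom (ZMod p))) :
    Φ.charpoly.Separable ∧ Φ.IsSemisimple := by
  classical
  have hsum1 : ∑ i ∈ range (n + 1), (if i = n then 1 else 0) = 1 := by
    rw [sum_ite_eq' (range (n + 1)) n (fun _ => 1), if_pos (mem_range.mpr (by omega))]
  refine semisimple_e hOC hEI hEC hTR hRD hp hs κ hz F hμ (fun i => if i = n then 1 else 0)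
    (fun _ => 0) P hP B hB ?_ Φ hΦ H hH hdim ?_ ?_
  · intro L _ _ _
    have h1 := hPJ L n (F.map (algebraMap κ L))
    have h2 : (projOpen L (F.map (algebraMap κ L)) : E) + projZero L (F.map (algebraMap κ L))
        = ∑ i ∈ range (n + 1), (Fintype.card L : E) ^ i := by exact_mod_cast h1
    rw [hZ L, sum_range_succ] at h2
    have h3 : ∑ i ∈ range (n + 1), (((if i = n then 1 else 0 : ℕ) : E) - ((0 : ℕ) : E))
        * (Fintype.card L : E) ^ i = (Fintype.card L : E) ^ n := by
      rw [sum_eq_single n]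
      · simp
      · intro i _ hi
        simp [hi]
      · intro h
        exact absurd (mem_range.mpr (by omega)) h
    rw [h3]
    linear_combination h2
  · intro hn
    rw [hsum1, hev hn]
    simp
  · intro hn
    rw [hsum1, ← hodd hn]
    simp only [sum_const_zero, pow_zero, pow_one, one_mul]
    ring

/-- The multiplicities of the eigenvalues `q ^ d ζ`, `ζ` a root of unity of `p`-power order. -/
theorem mult_q (hOC : OC) (hPJ : PJ) (hEI : EI) (hEC : EC) (hTR : TR) (hRD : RD)
    {p s : ℕ} (hp : p.Prime) (hs : 1 ≤ s)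
    (κ : Type) [Field κ] [Fintype κ] {z : κ} (hz : IsPrimitiveRoot z (p ^ s)) {d : ℕ}
    (F : MvPolynomial (Fin (2 * d + 1)) κ) {E : Type} [Field E] [CharZero E] [IsAlgClosed E]
    {μ : E} (hμ : IsPrimitiveRoot μ (p ^ s)) (P : ℤ[X]) (hP : P.coeff 0 = 1)
    (B : Multiset E)
    (hB : P.map (Int.castRingHom E) = (B.map fun x => 1 - C x * X).prod)
    (hZ : ∀ (L : Type) [Field L] [Fintype L] [Algebra κ L],
      (projZero L (F.map (algebraMap κ L)) : E)
        = (∑ i ∈ range (2 * d), (Fintype.card L : E) ^ i)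
          - (B.map fun x => x ^ Module.finrank κ L).sum)
    {W : Type} [AddCommGroup W] [Module E W] [FiniteDimensional E W] (Φ : Module.End E W)
    (hΦ : ∀ (L : Type) [Field L] [Fintype L] [Algebra κ L],
      LinearMap.trace E W (Φ ^ Module.finrank κ L)
        = projSum L E (p ^ s) (F.map (algebraMap κ L)) (algebraMap κ L z) μ) (b : ℕ)
    (S : Multiset E) (hS : S ≤ Φ.charpoly.roots)
    (hS2 : ∀ x ∈ S, x ^ p ^ b = ((Fintype.card κ : E) ^ d) ^ p ^ b) :
    S.card ≤ 1 + (P.map (Int.castRingHom (ZMod p))).rootMultiplicity 1 := by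
  classical
  have hfact : Fact p.Prime := ⟨hp⟩
  set q := Fintype.card κ with hq
  have hev : Even (2 * d) := even_two_mul d
  have hU : ∀ (L : Type) [Field L] [Fintype L] [Algebra κ L],
      (projOpen L (F.map (algebraMap κ L)) : E)
        = ((((q : E) ^ (2 * d)) ::ₘ B).map fun x => x ^ Module.finrank κ L).sum
          - ((0 : Multiset E).map fun x => x ^ Module.finrank κ L).sum := by
    intro L _ _ _
    have h1 := hPJ L (2 * d) (F.map (algebraMap κ L))
    have h2 : (projOpen L (F.map (algebraMap κ L)) : E) + projZero L (F.map (algebraMap κ L))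
        = ∑ i ∈ range (2 * d + 1), (Fintype.card L : E) ^ i := by exact_mod_cast h1
    rw [hZ L, sum_range_succ] at h2
    have h3 : (Fintype.card L : E) = (q : E) ^ Module.finrank κ L := by
      rw [Module.card_eq_pow_finrank (K := κ) (V := L)]
      push_cast
      rfl
    rw [Multiset.map_cons, Multiset.sum_cons, Multiset.map_zero, Multiset.sum_zero, sub_zero,
      ← pow_mul, mul_comm (2 * d), pow_mul, ← h3]
    linear_combination h2
  have hint : ∀ x ∈ ((q : E) ^ (2 * d)) ::ₘ B, IsIntegral ℤ x := by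
    intro x hx
    rw [Multiset.mem_cons] at hx
    rcases hx with rfl | hx
    · have h0 := (isIntegral_algebraMap (R := ℤ) (A := E) (x := (q : ℤ))).pow (2 * d)
      simpa using h0
    · exact integral_of_poly hP hB x hx
  obtain ⟨k, _, _, θ, A', B₁', B₂', hA', hB₁', hB₂', h1, -⟩ := congr hOC hEI hEC hTR hRD hp κ hz F
    hμ (((q : E) ^ (2 * d)) ::ₘ B) 0 hint (by simp) hU Φ (by
      intro L _ _ _
      rw [hev.neg_one_pow, one_mul, hΦ L])
  have h2 := h1 hev
  have hB₂0 : B₂' = 0 := by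
    rw [← Multiset.card_eq_zero, ← Multiset.card_map Subtype.val B₂', hB₂', Multiset.card_zero]
  rw [hB₂0, Multiset.map_zero, Multiset.prod_zero, mul_one] at h2
  have hP₁ : ((1 - C ((q : ℤ) ^ (2 * d)) * X) * P : ℤ[X]).map (Int.castRingHom E)
      = ((((q : E) ^ (2 * d)) ::ₘ B).map fun x => 1 - C x * X).prod := by
    rw [Polynomial.map_mul, hB, Multiset.map_cons, Multiset.prod_cons]
    congr 1
    simp
  rw [red_prod hP₁ hB₁' θ] at h2
  have hqk : ((q : ℕ) : k) = 1 := card_eq_one hp hs hz k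
  have hred : ((1 - C ((q : ℤ) ^ (2 * d)) * X) * P : ℤ[X]).map (Int.castRingHom k)
      = (1 - X) * P.map (Int.castRingHom k) := by
    have hqX : ((q : ℕ) : k[X]) = 1 := by rw [← C_eq_natCast, hqk, C_1]
    rw [Polynomial.map_mul]
    congr 1
    simp [hqX]
  rw [hred] at h2
  let ι : ZMod p →+* k := ZMod.castHom (dvd_refl p) k
  have hι : (P.map (Int.castRingHom (ZMod p))).map ι = P.map (Int.castRingHom k) := by
    rw [Polynomial.map_map]
    congr 1
    exact RingHom.ext_int _ _
  have hmult : (P.map (Int.castRingHom (ZMod p))).rootMultiplicity 1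
      = (P.map (Int.castRingHom k)).rootMultiplicity 1 := by
    rw [← hι, eq_rootMultiplicity_map ι.injective 1, map_one]
  have hPk : P.map (Int.castRingHom k) ≠ 0 := by
    intro h
    have h3 := congrArg (fun Q => Polynomial.coeff Q 0) h
    simp only [coeff_map, hP, coeff_zero, map_one] at h3
    exact one_ne_zero h3
  have h1X : (1 - X : k[X]) ≠ 0 := by
    intro h
    have h3 := congrArg (fun Q => Polynomial.coeff Q 0) h
    simp at h3
  -- the number of elements of `A'` reducing to `1`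
  set t := Multiset.card (Multiset.filter (fun x => θ x = 1) A') with ht
  have hdvd : (X - C (1 : k)) ^ t ∣ (1 - X) * P.map (Int.castRingHom k) := by
    rw [← h2, ← Multiset.filter_add_not (fun x => θ x = 1) A', Multiset.map_add,
      Multiset.prod_add]
    apply Dvd.dvd.mul_right
    have h4 : ((Multiset.filter (fun x => θ x = 1) A').map fun x => 1 - C (θ x) * X)
        = Multiset.replicate t (1 - X : k[X]) := by
      rw [ht, ← Multiset.map_const']
      apply Multiset.map_congr rfl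
      intro x hx
      rw [(Multiset.mem_filter.mp hx).2, C_1, one_mul]
    rw [h4, Multiset.prod_replicate, C_1, ← neg_sub X 1, neg_pow]
    exact dvd_mul_left _ _
  have hle : t ≤ 1 + (P.map (Int.castRingHom (ZMod p))).rootMultiplicity 1 := by
    rw [hmult]
    have h5 : t ≤ ((1 - X) * P.map (Int.castRingHom k)).rootMultiplicity 1 :=
      (le_rootMultiplicity_iff (mul_ne_zero h1X hPk)).mpr hdvd
    have h6 : (1 - X : k[X]).rootMultiplicity 1 = 1 := by
      have h7 : (1 - X : k[X]) = C (-1) * (X - C 1) := by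
        simp
      rw [h7, rootMultiplicity_mul, rootMultiplicity_C, rootMultiplicity_X_sub_C_self]
      exact mul_ne_zero (by simp) (X_sub_C_ne_zero 1)
    rw [rootMultiplicity_mul (mul_ne_zero h1X hPk), h6] at h5
    exact h5
  refine le_trans ?_ hle
  have hS3 : S ≤ Multiset.filter (fun x => x ^ p ^ b = ((q : E) ^ d) ^ p ^ b)
      Φ.charpoly.roots := Multiset.le_filter.mpr ⟨hS, hS2⟩
  refine (Multiset.card_le_card hS3).trans ?_
  rw [← hA', Multiset.filter_map, Multiset.card_map]
  apply Multiset.card_le_card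
  apply Multiset.monotone_filter_right
  intro x hx
  have h8 : (x : E) ^ p ^ b = ((q : E) ^ d) ^ p ^ b := hx
  have h9 : x ^ p ^ b = (((q : ℕ) : (integralClosure ℤ E).toSubring) ^ d) ^ p ^ b := by
    apply Subtype.ext
    push_cast
    exact h8
  have h10 := congrArg θ h9
  rw [map_pow, map_pow, map_pow, map_natCast, hqk, one_pow, one_pow] at h10
  have h11 : (θ x - 1) ^ p ^ b = 0 := by
    rw [sub_pow_char_pow, h10, one_pow, sub_self]
  exact sub_eq_zero.mp ((pow_eq_zero_iff (pow_pos hp.pos b).ne').mp h11)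

/-- The generalized eigenspaces of `q ^ d ζ`. -/
theorem eigen_q {p : ℕ} {E : Type} [Field E] [IsAlgClosed E]
    {W : Type} [AddCommGroup W] [Module E W] [FiniteDimensional E W] (Φ : Module.End E W)
    (b : ℕ) (Q : E) (M : ℕ)
    (h : ∀ S : Multiset E, S ≤ Φ.charpoly.roots → (∀ x ∈ S, x ^ p ^ b = Q ^ p ^ b) → S.card ≤ M)
    (ζ : E) (hζ : ζ ^ p ^ b = 1) :
    Module.finrank E (Φ.maxGenEigenspace (Q * ζ)) ≤ M ∧
    (M = 1 → Φ.maxGenEigenspace (Q * ζ) = Φ.eigenspace (Q * ζ)) := by
  classical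
  have h1 : Module.finrank E (Φ.maxGenEigenspace (Q * ζ)) ≤ M := by
    rw [LinearMap.finrank_maxGenEigenspace_eq, ← count_roots]
    have h2 := h (Multiset.replicate (Φ.charpoly.roots.count (Q * ζ)) (Q * ζ))
      (Multiset.le_count_iff_replicate_le.mp le_rfl) (by
        intro x hx
        rw [Multiset.eq_of_mem_replicate hx, mul_pow, hζ, mul_one])
    rwa [Multiset.card_replicate] at h2
  refine ⟨h1, ?_⟩
  intro hM
  have hle : Φ.eigenspace (Q * ζ) ≤ Φ.maxGenEigenspace (Q * ζ) :=
    (Φ.genEigenspace (Q * ζ)).mono le_top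
  symm
  apply Submodule.eq_of_le_of_finrank_le hle
  rcases Nat.eq_zero_or_pos (Module.finrank E (Φ.maxGenEigenspace (Q * ζ))) with h0 | h0
  · rw [h0]
    exact Nat.zero_le _
  · rw [LinearMap.finrank_maxGenEigenspace_eq] at h0
    have hroot : Φ.charpoly.IsRoot (Q * ζ) :=
      (rootMultiplicity_pos (LinearMap.charpoly_monic Φ).ne_zero).mp h0
    have hev : Φ.HasEigenvalue (Q * ζ) :=
      (Module.End.hasEigenvalue_iff_isRoot_charpoly Φ (Q * ζ)).mpr hroot
    have hne : Φ.eigenspace (Q * ζ) ≠ ⊥ := hev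
    have h3 : 0 < Module.finrank E (Φ.eigenspace (Q * ζ)) := by
      have : Nontrivial (Φ.eigenspace (Q * ζ)) := Submodule.nontrivial_iff_ne_bot.mpr hne
      exact Module.finrank_pos
    omega

/-- The sum of the dimensions of the generalized eigenspaces of `Q ζ`. -/
theorem sum_dim {p : ℕ} {E : Type} [Field E] [IsAlgClosed E]
    {W : Type} [AddCommGroup W] [Module E W] [FiniteDimensional E W] (Φ : Module.End E W)
    (b : ℕ) (hp : 0 < p ^ b) (Q : E) (hQ : Q ≠ 0) (M : ℕ)
    (h : ∀ S : Multiset E, S ≤ Φ.charpoly.roots → (∀ x ∈ S, x ^ p ^ b = Q ^ p ^ b) → S.card ≤ M) :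
    ∑ ζ ∈ nthRootsFinset (p ^ b) (1 : E), Module.finrank E (Φ.maxGenEigenspace (Q * ζ)) ≤ M := by
  classical
  set S : Multiset E := ∑ ζ ∈ nthRootsFinset (p ^ b) (1 : E),
    Multiset.replicate (Φ.charpoly.roots.count (Q * ζ)) (Q * ζ) with hS
  have hcard : S.card = ∑ ζ ∈ nthRootsFinset (p ^ b) (1 : E),
      Module.finrank E (Φ.maxGenEigenspace (Q * ζ)) := by
    rw [hS, Multiset.card_sum]
    refine sum_congr rfl fun ζ _ => ?_
    rw [Multiset.card_replicate, LinearMap.finrank_maxGenEigenspace_eq, count_roots]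
  rw [← hcard]
  apply h
  · rw [Multiset.le_iff_count]
    intro y
    rw [hS, Multiset.count_sum']
    by_cases hy : ∃ ζ ∈ nthRootsFinset (p ^ b) (1 : E), y = Q * ζ
    · obtain ⟨ζ, hζ, rfl⟩ := hy
      rw [sum_eq_single ζ]
      · rw [Multiset.count_replicate_self]
      · intro ζ' _ hne
        rw [Multiset.count_replicate, if_neg]
        intro h
        exact hne (mul_left_cancel₀ hQ h)
      · intro h
        exact absurd hζ h
    · rw [sum_eq_zero]
      · exact Nat.zero_le _
      · intro ζ hζ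
        rw [Multiset.count_replicate, if_neg]
        intro h
        exact hy ⟨ζ, hζ, h.symm⟩
  · intro x hx
    rw [hS, Multiset.mem_sum] at hx
    obtain ⟨ζ, hζ, hx⟩ := hx
    rw [mem_nthRootsFinset hp] at hζ
    rw [Multiset.eq_of_mem_replicate hx, mul_pow, hζ, mul_one]

end Pool.Agent.W528.HS
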