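import Pool.Agent.W528.HS.Stm

/-!
# Semisimplicity of Frobenius on cyclic coverings of prime power degree
-/

set_option autoImplicit false

namespace Pool.Agent.W528.HS

open Finset Polynomial Pool.Agent.W528.HA

lemma lift_eq {E : Type} [Field E] {O : Subring E} (A : Multiset O) :
    (do let a ← A; pure (a : E) : Multiset E) = A.map Subtype.val := by
  simp [Multiset.bind_def, Multiset.pure_def]

lemma cast_orbSum {E : Type} [Field E] (N : ℕ) (a : ℕ → ℕ → ℕ) (n : ℕ) :
    ((orbSum N (1 : ℤ) a n : ℤ) : E) = orbSum N (1 : E) a n := by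
  unfold orbSum
  push_cast
  simp

/-- Congruence between the characteristic polynomial of Frobenius on the part of a character of
prime power order and the zeta function of the complement of the branch divisor. -/
theorem congr (hOC : OC) (hEI : EI) (hEC : EC) (hTR : TR) (hRD : RD) {p s : ℕ} (hp : p.Prime)
    (κ : Type) [Field κ] [Fintype κ] {z : κ} (hz : IsPrimitiveRoot z (p ^ s)) {n : ℕ}
    (F : MvPolynomial (Fin (n + 1)) κ) {E : Type} [Field E] [CharZero E] [IsAlgClosed E]
    {μ : E} (hμ : IsPrimitiveRoot μ (p ^ s)) (B₁ B₂ : Multiset E)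
    (hB₁ : ∀ x ∈ B₁, IsIntegral ℤ x) (hB₂ : ∀ x ∈ B₂, IsIntegral ℤ x)
    (hU : ∀ (L : Type) [Field L] [Fintype L] [Algebra κ L],
      (projOpen L (F.map (algebraMap κ L)) : E)
        = (B₁.map fun x => x ^ Module.finrank κ L).sum
          - (B₂.map fun x => x ^ Module.finrank κ L).sum)
    {W : Type} [AddCommGroup W] [Module E W] [FiniteDimensional E W] (Φ : Module.End E W)
    (hΦ : ∀ (L : Type) [Field L] [Fintype L] [Algebra κ L],
      (-1) ^ n * LinearMap.trace E W (Φ ^ Module.finrank κ L)
        = projSum L E (p ^ s) (F.map (algebraMap κ L)) (algebraMap κ L z) μ) :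
    ∃ (k : Type) (_ : Field k) (_ : CharP k p) (θ : (integralClosure ℤ E).toSubring →+* k)
      (A' B₁' B₂' : Multiset (integralClosure ℤ E).toSubring),
      A'.map Subtype.val = Φ.charpoly.roots ∧ B₁'.map Subtype.val = B₁ ∧
      B₂'.map Subtype.val = B₂ ∧
      (Even n → (A'.map fun x => 1 - C (θ x) * X).prod * (B₂'.map fun x => 1 - C (θ x) * X).prod
        = (B₁'.map fun x => 1 - C (θ x) * X).prod) ∧
      (Odd n → (A'.map fun x => 1 - C (θ x) * X).prod * (B₁'.map fun x => 1 - C (θ x) * X).prod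
        = (B₂'.map fun x => 1 - C (θ x) * X).prod) := by
  classical
  have hN : 0 < p ^ s := pow_pos hp.pos s
  obtain ⟨a, ha⟩ := hOC κ (p ^ s) z hN hz (n + 1) F
  obtain ⟨c, hc⟩ := CharP.exists κ
  have hcp : Fact c.Prime := ⟨CharP.char_is_prime κ c⟩
  have hext : ∀ m, 1 ≤ m → ∃ (L : Type) (_ : Field L) (_ : Fintype L) (_ : Algebra κ L),
      Module.finrank κ L = m := by
    intro m hm
    have : NeZero m := ⟨by omega⟩
    let _ : Fintype (FiniteField.Extension κ c m) := Fintype.ofFinite _
    exact ⟨FiniteField.Extension κ c m, inferInstance, inferInstance, inferInstance,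
      FiniteField.finrank_extension κ c m⟩
  have hS : ∀ m, 1 ≤ m → orbSum (p ^ s) μ a m
      = (((-1) ^ n : ℤ) : E) * (Φ.charpoly.roots.map fun x => x ^ m).sum := by
    intro m hm
    obtain ⟨L, _, _, _, hL⟩ := hext m hm
    have h1 := (ha L).1 E μ hμ.pow_eq_one
    rw [hL] at h1
    have h2 := hΦ L
    rw [hL] at h2
    rw [← h1, ← h2, hTR E W Φ m]
    push_cast
    ring
  have hU' : ∀ m, 1 ≤ m → orbSum (p ^ s) (1 : E) a m
      = (B₁.map fun x => x ^ m).sum - (B₂.map fun x => x ^ m).sum := by
    intro m hm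
    obtain ⟨L, _, _, _, hL⟩ := hext m hm
    have h1 := (ha L).2
    rw [hL] at h1
    have h2 := hU L
    rw [hL] at h2
    rw [← h2, ← cast_orbSum, ← h1]
    push_cast
    ring
  have hA : ∀ x ∈ Φ.charpoly.roots, IsIntegral ℤ x := by
    refine hEI E (p ^ s) μ hN hμ.pow_eq_one a Φ.charpoly.roots ((-1) ^ n) ?_ hS
    rcases Nat.even_or_odd n with h | h
    · left; exact h.neg_one_pow
    · right; exact h.neg_one_pow
  obtain ⟨k, _, _, ⟨θ⟩⟩ := hRD E p hp
  have hlift : ∀ M : Multiset E, (∀ x ∈ M, IsIntegral ℤ x) →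
      ∃ M' : Multiset (integralClosure ℤ E).toSubring, M'.map Subtype.val = M := by
    intro M hM
    have hM' : ∀ x ∈ M, x ∈ (integralClosure ℤ E).toSubring := hM
    refine ⟨M.pmap (fun x hx => (⟨x, hx⟩ : (integralClosure ℤ E).toSubring)) hM', ?_⟩
    rw [Multiset.map_pmap, Multiset.pmap_eq_map, Multiset.map_id']
  obtain ⟨A', hA'⟩ := hlift _ hA
  obtain ⟨B₁', hB₁'⟩ := hlift _ hB₁
  obtain ⟨B₂', hB₂'⟩ := hlift _ hB₂
  have hmap : ∀ (M : Multiset E) (M' : Multiset (integralClosure ℤ E).toSubring),
      M'.map Subtype.val = M → ∀ m : ℕ,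
      ((do let a ← M'; pure (a : E) : Multiset E).map fun x => x ^ m).sum
      = (M.map fun x => x ^ m).sum := by
    intro M M' h m
    rw [lift_eq, h]
  have hμO : ∃ h : μ ∈ (integralClosure ℤ E).toSubring, θ ⟨μ, h⟩ = 1 := by
    have h1 : IsIntegral ℤ μ := hμ.isIntegral hN
    refine ⟨h1, ?_⟩
    set y := θ ⟨μ, h1⟩ with hy
    have h2 : y ^ (p ^ s) = 1 := by
      rw [hy, ← map_pow]
      have : (⟨μ, h1⟩ : (integralClosure ℤ E).toSubring) ^ (p ^ s) = 1 := by
        apply Subtype.ext
        push_cast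
        exact hμ.pow_eq_one
      rw [this, map_one]
    have : Fact p.Prime := ⟨hp⟩
    have h3 : (y - 1) ^ (p ^ s) = 0 := by
      rw [sub_pow_char_pow, h2, one_pow, sub_self]
    exact sub_eq_zero.mp (pow_eq_zero_iff (hN.ne') |>.mp h3)
  refine ⟨k, inferInstance, inferInstance, θ, A', B₁', B₂', hA', hB₁', hB₂', ?_, ?_⟩
  · intro hev
    have h := hEC E (p ^ s) μ hN hμ.pow_eq_one a (integralClosure ℤ E).toSubring A' 0 B₁' B₂'
      (by
        intro m hm
        rw [hS m hm, hev.neg_one_pow, hmap _ _ hA' m]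
        simp) (by
        intro m hm
        rw [hU' m hm, hmap _ _ hB₁' m, hmap _ _ hB₂' m]) k θ hμO
    simpa using h
  · intro hodd
    have h := hEC E (p ^ s) μ hN hμ.pow_eq_one a (integralClosure ℤ E).toSubring 0 A' B₁' B₂'
      (by
        intro m hm
        rw [hS m hm, hodd.neg_one_pow, hmap _ _ hA' m]
        simp) (by
        intro m hm
        rw [hU' m hm, hmap _ _ hB₁' m, hmap _ _ hB₂' m]) k θ hμO
    rw [mul_comm (A'.map fun x => 1 - C (θ x) * X).prod]
    simpa using h.symm

/-- The roots of an integral polynomial `∏ (1 - x T)` are integral. -/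
lemma integral_of_poly {E : Type} [Field E] [CharZero E] {P : ℤ[X]} (hP0 : P.coeff 0 = 1)
    {B : Multiset E} (hB : P.map (Int.castRingHom E) = (B.map fun x => 1 - C x * X).prod) :
    ∀ x ∈ B, IsIntegral ℤ x := by
  classical
  intro x hx
  by_cases hx0 : x = 0
  · rw [hx0]
    exact isIntegral_zero
  have h1 : eval₂ (Int.castRingHom E) x⁻¹ P = 0 := by
    rw [← eval_map, hB, eval_multiset_prod, Multiset.prod_eq_zero_iff, Multiset.map_map,
      Multiset.mem_map]
    refine ⟨x, hx, ?_⟩
    simp [hx0]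
  refine ⟨P.reverse, ?_, ?_⟩
  · have h2 : P.reverse.leadingCoeff = P.trailingCoeff := reverse_leadingCoeff P
    have h3 : P.natTrailingDegree = 0 := by
      rw [natTrailingDegree_eq_zero]
      right
      rw [hP0]
      exact one_ne_zero
    rw [Monic, h2, trailingCoeff, h3, hP0]
  · have : Invertible x⁻¹ := invertibleOfNonzero (inv_ne_zero hx0)
    have h4 := (eval₂_reverse_eq_zero_iff (Int.castRingHom E) x⁻¹ P).mpr h1
    rw [invOf_eq_inv, inv_inv] at h4
    exact h4

/-- The reduction of `∏ (1 - x T)`. -/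
lemma red_prod {E : Type} [Field E] [CharZero E] {P : ℤ[X]}
    {B : Multiset E} (hB : P.map (Int.castRingHom E) = (B.map fun x => 1 - C x * X).prod)
    {O : Subring E} {B' : Multiset O} (hB' : B'.map Subtype.val = B) {k : Type} [Field k]
    (θ : O →+* k) : (B'.map fun x => 1 - C (θ x) * X).prod = P.map (Int.castRingHom k) := by
  have h1 : P.map (Int.castRingHom O) = (B'.map fun x => 1 - C x * X).prod := by
    apply Polynomial.map_injective O.subtype Subtype.val_injective
    rw [Polynomial.map_map, Polynomial.map_multiset_prod, Multiset.map_map]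
    rw [show O.subtype.comp (Int.castRingHom O) = Int.castRingHom E from RingHom.ext_int _ _, hB,
      ← hB', Multiset.map_map]
    congr 1
    apply Multiset.map_congr rfl
    intro x _
    simp
  have h2 := congrArg (Polynomial.map θ) h1
  rw [Polynomial.map_map, Polynomial.map_multiset_prod, Multiset.map_map] at h2
  rw [show θ.comp (Int.castRingHom O) = Int.castRingHom k from RingHom.ext_int _ _] at h2
  rw [h2]
  congr 1
  apply Multiset.map_congr rfl
  intro x _
  simp

lemma natDegree_le_card {k : Type} [Field k] {O : Type} (A : Multiset O) (t : O → k) :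
    ((A.map fun x => 1 - C (t x) * X).prod).natDegree ≤ A.card := by
  induction A using Multiset.induction_on with
  | empty => simp
  | cons x A ih =>
    rw [Multiset.map_cons, Multiset.prod_cons, Multiset.card_cons]
    refine (natDegree_mul_le).trans ?_
    have h1 : (1 - C (t x) * X : k[X]).natDegree ≤ 1 := by
      refine (natDegree_sub_le _ _).trans ?_
      rw [natDegree_one, max_le_iff]
      exact ⟨by omega, (natDegree_C_mul_le _ _).trans natDegree_X_le⟩
    omega

/-- A multiset is without repetitions if the reduction of `∏ (1 - x T)` is squarefree of full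
degree. -/
lemma nodup_of_squarefree {E : Type} [Field E] {O : Subring E} {k : Type} [Field k] (θ : O →+* k)
    {A : Multiset E} {A' : Multiset O} (hA' : A'.map Subtype.val = A) {H : k[X]}
    (hH : Squarefree H) (hdeg : H.natDegree = A.card)
    (h : (A'.map fun x => 1 - C (θ x) * X).prod = H) : A.Nodup := by
  classical
  rw [← hA', Multiset.nodup_map_iff_of_injective Subtype.val_injective]
  rw [Multiset.nodup_iff_count_le_one]
  intro x
  by_contra hx
  rw [not_le] at hx
  obtain ⟨A'', hA''⟩ : ∃ A'', A' = x ::ₘ x ::ₘ A'' := by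
    have h1 : x ∈ A' := Multiset.count_pos.mp (by omega)
    obtain ⟨A1, hA1⟩ := Multiset.exists_cons_of_mem h1
    rw [hA1, Multiset.count_cons_self] at hx
    obtain ⟨A2, hA2⟩ := Multiset.exists_cons_of_mem (Multiset.count_pos.mp (by omega : 0 < A1.count x))
    exact ⟨A2, by rw [hA1, hA2]⟩
  have hcard : A.card = A''.card + 2 := by
    rw [← hA', Multiset.card_map, hA'', Multiset.card_cons, Multiset.card_cons]
  rw [hA'', Multiset.map_cons, Multiset.map_cons, Multiset.prod_cons, Multiset.prod_cons,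
    ← mul_assoc] at h
  have hunit := hH (1 - C (θ x) * X) ⟨_, h.symm⟩
  have hx0 : θ x = 0 := by
    by_contra hne
    have h2 : (1 - C (θ x) * X : k[X]).natDegree = 1 := by
      rw [sub_eq_add_neg, ← neg_mul, ← C_neg, ← C_1, add_comm]
      exact natDegree_linear (neg_ne_zero.mpr hne)
    rw [Polynomial.isUnit_iff] at hunit
    obtain ⟨r, _, hr⟩ := hunit
    rw [← hr, natDegree_C] at h2
    exact zero_ne_one h2
  rw [hx0, C_0, zero_mul, sub_zero, one_mul, one_mul] at h
  have h3 := natDegree_le_card A'' (fun y => θ y)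
  rw [h, hdeg, hcard] at h3
  omega

/-- Semisimplicity from the zeta function of the complement modulo `p`. -/
theorem semisimple_gen (hOC : OC) (hEI : EI) (hEC : EC) (hTR : TR) (hRD : RD) {p s : ℕ}
    (hp : p.Prime)
    (κ : Type) [Field κ] [Fintype κ] {z : κ} (hz : IsPrimitiveRoot z (p ^ s)) {n : ℕ}
    (F : MvPolynomial (Fin (n + 1)) κ) {E : Type} [Field E] [CharZero E] [IsAlgClosed E]
    {μ : E} (hμ : IsPrimitiveRoot μ (p ^ s)) (P₁ P₂ : ℤ[X]) (hP₁ : P₁.coeff 0 = 1)
    (hP₂ : P₂.coeff 0 = 1) (B₁ B₂ : Multiset E)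
    (hB₁ : P₁.map (Int.castRingHom E) = (B₁.map fun x => 1 - C x * X).prod)
    (hB₂ : P₂.map (Int.castRingHom E) = (B₂.map fun x => 1 - C x * X).prod)
    (hU : ∀ (L : Type) [Field L] [Fintype L] [Algebra κ L],
      (projOpen L (F.map (algebraMap κ L)) : E)
        = (B₁.map fun x => x ^ Module.finrank κ L).sum
          - (B₂.map fun x => x ^ Module.finrank κ L).sum)
    {W : Type} [AddCommGroup W] [Module E W] [FiniteDimensional E W] (Φ : Module.End E W)
    (hΦ : ∀ (L : Type) [Field L] [Fintype L] [Algebra κ L],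
      (-1) ^ n * LinearMap.trace E W (Φ ^ Module.finrank κ L)
        = projSum L E (p ^ s) (F.map (algebraMap κ L)) (algebraMap κ L z) μ)
    (H : (ZMod p)[X]) (hH : Squarefree H) (hdim : H.natDegree = Module.finrank E W)
    (hev : Even n → H * P₂.map (Int.castRingHom (ZMod p)) = P₁.map (Int.castRingHom (ZMod p)))
    (hodd : Odd n → H * P₁.map (Int.castRingHom (ZMod p)) = P₂.map (Int.castRingHom (ZMod p))) :
    Φ.charpoly.Separable ∧ Φ.IsSemisimple := by
  classical
  have hfact : Fact p.Prime := ⟨hp⟩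
  obtain ⟨k, _, _, θ, A', B₁', B₂', hA', hB₁', hB₂', h1, h2⟩ := congr hOC hEI hEC hTR hRD hp κ hz F
    hμ B₁ B₂ (integral_of_poly hP₁ hB₁) (integral_of_poly hP₂ hB₂) hU Φ hΦ
  rw [red_prod hB₁ hB₁' θ, red_prod hB₂ hB₂' θ] at h1 h2
  let ι : ZMod p →+* k := ZMod.castHom (dvd_refl p) k
  have hι : ∀ P : ℤ[X], (P.map (Int.castRingHom (ZMod p))).map ι = P.map (Int.castRingHom k) := by
    intro P
    rw [Polynomial.map_map]
    congr 1
    exact RingHom.ext_int _ _
  have hne : ∀ P : ℤ[X], P.coeff 0 = 1 → P.map (Int.castRingHom k) ≠ 0 := by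
    intro P hP h
    have h3 := congrArg (fun Q => Polynomial.coeff Q 0) h
    simp only [coeff_map, hP, coeff_zero, map_one] at h3
    exact one_ne_zero h3
  have hprod : (A'.map fun x => 1 - C (θ x) * X).prod = H.map ι := by
    rcases Nat.even_or_odd n with hn | hn
    · have h3 := congrArg (Polynomial.map ι) (hev hn)
      rw [Polynomial.map_mul, hι, hι] at h3
      exact mul_right_cancel₀ (hne P₂ hP₂) ((h1 hn).trans h3.symm)
    · have h3 := congrArg (Polynomial.map ι) (hodd hn)
      rw [Polynomial.map_mul, hι, hι] at h3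
      exact mul_right_cancel₀ (hne P₁ hP₁) ((h2 hn).trans h3.symm)
  have hsep : H.Separable := PerfectField.separable_iff_squarefree.mpr hH
  have hsq : Squarefree (H.map ι) := (hsep.map).squarefree
  have hcard : Φ.charpoly.roots.card = Module.finrank E W := by
    rw [← (IsAlgClosed.splits Φ.charpoly).natDegree_eq_card_roots, LinearMap.charpoly_natDegree]
  have hnodup : Φ.charpoly.roots.Nodup := by
    refine nodup_of_squarefree θ hA' hsq ?_ hprod
    rw [natDegree_map, hdim, hcard]
  have hchar : Φ.charpoly.Separable := by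
    rw [← nodup_roots_iff_of_splits (LinearMap.charpoly_monic Φ).ne_zero
      (IsAlgClosed.splits Φ.charpoly)]
    exact hnodup
  exact ⟨hchar, Module.End.isSemisimple_of_squarefree_aeval_eq_zero hchar.squarefree
    (LinearMap.aeval_self_charpoly Φ)⟩

end Pool.Agent.W528.HS
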