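import Pool.Agent.W528.HA.Stm

/-!
# Semisimplicity of Frobenius on cyclic coverings: statements of the parts
-/

set_option autoImplicit false

namespace Pool.Agent.W528.HS

open Finset Polynomial Pool.Agent.W528.HA

/-- The vector `v` is the normalized representative of a point of projective space: the last
nonzero coordinate is `1`. -/
def IsNorm {L : Type} [Field L] {k : ℕ} (v : Fin k → L) : Prop :=
  ∃ i, v i = 1 ∧ ∀ j, i < j → v j = 0

/-- The sum over the points `v` of projective space over `L`, with normalized coordinates, of the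
value at `F(v)` of the character of order `N` belonging to `z ↦ μ`. -/
noncomputable def projSum (L : Type) [Field L] [Fintype L] (R : Type) [CommRing R] (N : ℕ) {k : ℕ}
    (F : MvPolynomial (Fin k) L) (z : L) (μ : R) : R := by
  classical
  exact ∑ v : Fin k → L, if IsNorm v then
    kv N z μ ((MvPolynomial.eval v F) ^ ((Fintype.card L - 1) / N)) else 0

/-- The number of points of projective space over `L` with `F ≠ 0`. -/
noncomputable def projOpen (L : Type) [Field L] {k : ℕ} (F : MvPolynomial (Fin k) L) : ℕ :=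
  Set.ncard {v : Fin k → L | IsNorm v ∧ MvPolynomial.eval v F ≠ 0}

/-- The number of points of projective space over `L` with `F = 0`. -/
noncomputable def projZero (L : Type) [Field L] {k : ℕ} (F : MvPolynomial (Fin k) L) : ℕ :=
  Set.ncard {v : Fin k → L | IsNorm v ∧ MvPolynomial.eval v F = 0}

/-- `∑_{d ∣ n} d ∑_{i < N} a(d, i) μ ^ (i n / d)`. -/
noncomputable def orbSum {R : Type} [CommRing R] (N : ℕ) (μ : R) (a : ℕ → ℕ → ℕ) (n : ℕ) : R :=
  ∑ d ∈ n.divisors, (d : R) * ∑ i ∈ range N, (a d i : R) * μ ^ (i * (n / d))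

/-- Closed points: `a d i` is the number of closed points of degree `d` with character
value `μ ^ i`. -/
def OC : Prop :=
  ∀ (κ : Type) [Field κ] [Fintype κ] (N : ℕ) (z : κ), 0 < N → IsPrimitiveRoot z N →
    ∀ (k : ℕ) (F : MvPolynomial (Fin k) κ), ∃ a : ℕ → ℕ → ℕ,
    ∀ (L : Type) [Field L] [Fintype L] [Algebra κ L],
      (∀ (R : Type) [CommRing R] (μ : R), μ ^ N = 1 →
        projSum L R N (F.map (algebraMap κ L)) (algebraMap κ L z) μ
          = orbSum N μ a (Module.finrank κ L)) ∧
      (projOpen L (F.map (algebraMap κ L)) : ℤ) = orbSum N 1 a (Module.finrank κ L)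

/-- The points of projective space. -/
def PJ : Prop :=
  ∀ (L : Type) [Field L] [Fintype L] (n : ℕ) (F : MvPolynomial (Fin (n + 1)) L),
    projOpen L F + projZero L F = ∑ i ∈ range (n + 1), Fintype.card L ^ i

/-- Integrality. -/
def EI : Prop :=
  ∀ (E : Type) [Field E] [CharZero E] (N : ℕ) (μ : E), 0 < N → μ ^ N = 1 →
    ∀ (a : ℕ → ℕ → ℕ) (A : Multiset E) (σ : ℤ), σ = 1 ∨ σ = -1 →
    (∀ n, 1 ≤ n → orbSum N μ a n = (σ : E) * (A.map fun x => x ^ n).sum) →
    ∀ x ∈ A, IsIntegral ℤ x

/-- Congruence. -/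
def EC : Prop :=
  ∀ (E : Type) [Field E] [CharZero E] (N : ℕ) (μ : E), 0 < N → μ ^ N = 1 →
    ∀ (a : ℕ → ℕ → ℕ) (O : Subring E) (A₁ A₂ B₁ B₂ : Multiset O),
    (∀ n, 1 ≤ n → orbSum N μ a n
      = (A₁.map fun x => (x : E) ^ n).sum - (A₂.map fun x => (x : E) ^ n).sum) →
    (∀ n, 1 ≤ n → orbSum N (1 : E) a n
      = (B₁.map fun x => (x : E) ^ n).sum - (B₂.map fun x => (x : E) ^ n).sum) →
    ∀ (k : Type) [Field k] (θ : O →+* k), (∃ h : μ ∈ O, θ ⟨μ, h⟩ = 1) →
      (A₁.map fun x => 1 - C (θ x) * X).prod * (B₂.map fun x => 1 - C (θ x) * X).prod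
        = (B₁.map fun x => 1 - C (θ x) * X).prod * (A₂.map fun x => 1 - C (θ x) * X).prod

/-- Traces of powers. -/
def TR : Prop :=
  ∀ (E : Type) [Field E] [IsAlgClosed E] (V : Type) [AddCommGroup V] [Module E V]
    [FiniteDimensional E V] (Φ : Module.End E V) (n : ℕ),
    LinearMap.trace E V (Φ ^ n) = (Φ.charpoly.roots.map fun x => x ^ n).sum

/-- A place above `p`. -/
def RD : Prop :=
  ∀ (E : Type) [Field E] [CharZero E] (p : ℕ), p.Prime →
    ∃ (k : Type) (_ : Field k) (_ : CharP k p),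
      Nonempty ((integralClosure ℤ E).toSubring →+* k)

end Pool.Agent.W528.HS
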